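import Pool.Agent.Q138.PS.WG
import Pool.Agent.Q138.AJ.Rede373

/-!
# The modular Schanuel conjecture with derivatives at the points of number fields close to given points

Consider `n` analytic curves `(τ_1, …, τ_p)` in products of upper half-planes over connected open sets `U_j`, with `p` of the `5 p`
functions `τ_i`, `j(τ_i)`, `j'(τ_i)`, `j''(τ_i)`, `exp (2πi τ_i)` algebraic over `ℂ(z)` (the set `S_j`), and the conditions of
`Curve`. A tuple `x` of points of a number field `k ⊂ ℂ` is exceptional (for `g`, `ξ ∈ ℂ^g`, `d`, `A`, `B` and `T`) if all the other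
functions (`4 p_j` for each `j`) satisfy at `x_1, …, x_n` an approximate relation (`≤ T ^ (-B)`) of degree at most `d` with
coefficients `∑ ξ_i c_i`, `c_i` integers of `k` of size at most `T ^ A`. We show that only the points `z` of a small set have
exceptional tuples among their good approximations.

* For compact sets `K_j` in `U_j`, bounds `m` for the degree of the field, `g`, `d` and `A` for the relations, and `ε > 0` there is `B` such
  that for all `θ > 0`: outside a set of `z ∈ ℂ^n` of Hausdorff dimension at most `(2 m (n - 1) + ε) / θ`, for all number fields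
  `k ⊂ ℂ` of degree at most `m`, all `ξ` from a given countable set and all large `T`, NO exceptional tuple of `k`, of height at
  most `T`, satisfies `|x_j - z_j| ≤ T ^ (-θ)` for all `j`. For `n = 1` the dimension is at most `ε / θ`.
* Outside a set of Hausdorff dimension ZERO every `z` with `z_j ∈ U_j` has the property that for all number fields `k ⊂ ℂ`, all
  `g` and `ξ` from the countable set, all `d` and `A` there are `B` and `θ` such that for all large `T` no exceptional tuple of `k`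
  of height at most `T` satisfies `|x_j - z_j| ≤ T ^ (-θ)` for all `j`.
-/

set_option autoImplicit false

namespace Pool.Agent.Results.MP_ede373_nt.CurvesNearGivenPoints

open Filter Pool.Agent.Q138.PS Pool.Agent.Q138.AJ.Rede373

theorem mono {n g d : ℕ} {J : Fin n → Type} {v : ∀ j, ℂ → J j → ℂ} {F : Type} [Field F] [NumberField F] (ι : F →+* ℂ) (ξ : Fin g → ℂ)
    {K : Fin n → Set ℂ} {A B T T' : ℝ} (h1 : max 1 (2 ^ max B 0) ≤ T) (h2 : T ≤ T') (h3 : T' ≤ 2 * T) :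
    Exceptional n d v F ι ξ K A (max B 0 + 1) T ⊆ Exceptional n d v F ι ξ K (max A 0) B T' := by
  have h4 : 1 ≤ T := (le_max_left _ _).trans h1
  rintro x ⟨hx, P, hP, hc, s₀, hs, hv⟩
  refine ⟨fun j => ⟨(hx j).1, ?_⟩, P, hP, fun s => ?_, s₀, hs, hv.trans ?_⟩
  · obtain ⟨a, b, hb, hab, he⟩ := (hx j).2
    exact ⟨a, b, hb, fun φ => ⟨(hab φ).1.trans h2, (hab φ).2.trans h2⟩, he⟩
  · obtain ⟨c, hc1, hc2⟩ := hc s
    exact ⟨c, fun i φ => (hc1 i φ).trans (num_coeff h4 h2), hc2⟩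
  · exact mul_le_mul_of_nonneg_right (num_value h4 ((le_max_right _ _).trans h1) h2 h3) (norm_nonneg _)

/-- **Theorem.** -/
theorem result {n : ℕ} {p : Fin n → ℕ} (U : Fin n → Set ℂ) (τ : ∀ j, Fin (p j) → ℂ → ℂ)
    (S : ∀ j, Finset (Name (p j))) (hU : ∀ j, Curve (U j) (τ j) (S j)) (X : Set ℂ) (hX : X.Countable) :
    (∀ (K : Fin n → Set ℂ), (∀ j, IsCompact (K j)) → (∀ j, K j ⊆ U j) → ∀ (m g d : ℕ) (A ε : ℝ), 0 < ε → ∃ B : ℝ, ∀ θ : ℝ, 0 < θ →
      ∃ Z : Set (Fin n → ℂ), dimH Z ≤ ENNReal.ofReal ((2 * m * (n - 1 : ℕ) + ε) / θ) ∧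
      ∀ z, z ∉ Z → ∀ (k : IntermediateField ℚ ℂ) [NumberField k], Module.finrank ℚ k ≤ m →
        ∀ ξ : Fin g → ℂ, (∀ i, ξ i ∈ X) → ∀ᶠ T : ℝ in atTop,
          ∀ x ∈ Exceptional n d (fun j z (k : {x : Name (p j) // x ∉ S j}) => value (τ j) z k.1) k (algebraMap k ℂ) ξ K A B T, ∃ j, T ^ (-θ) < ‖((x j : k) : ℂ) - z j‖) ∧
    ∃ Z : Set (Fin n → ℂ), dimH Z = 0 ∧ ∀ z, z ∉ Z → (∀ j, z j ∈ U j) →
      ∀ (k : IntermediateField ℚ ℂ) [NumberField k] (g : ℕ) (ξ : Fin g → ℂ), (∀ i, ξ i ∈ X) → ∀ (d : ℕ) (A : ℝ),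
        ∃ B θ : ℝ, 0 < θ ∧ ∀ᶠ T : ℝ in atTop,
          ∀ x ∈ Exceptional n d (fun j z (k : {x : Name (p j) // x ∉ S j}) => value (τ j) z k.1) k (algebraMap k ℂ) ξ (fun _ => Set.univ) A B T, ∃ j, T ^ (-θ) < ‖((x j : k) : ℂ) - z j‖ := by

  constructor
  · intro K hK hKU m g d A ε hε
    obtain ⟨B, C, T₀, hbd⟩ := Pool.Agent.Q138.AJ.Rede373.result U τ S hU K hK hKU m g d (max A 0) ε hε
    refine ⟨max B 0 + 1, fun θ hθ => ?_⟩
    exact near_all (Ξ := Fin g → ℂ) {ξ | ∀ i, ξ i ∈ X} (Set.countable_pi fun _ => hX)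
      (fun F _ _ ι ξ T => Exceptional n d (fun j z (k : {x : Name (p j) // x ∉ S j}) => value (τ j) z k.1) F ι ξ K A (max B 0 + 1) T)
      (fun F _ _ ι ξ T => Exceptional n d (fun j z (k : {x : Name (p j) // x ∉ S j}) => value (τ j) z k.1) F ι ξ K (max A 0) B T) (fun F _ _ ι T => Points F ι (⋃ j, K j) T)
      (fun F _ _ ι T x hx => hx.2) C T₀ (max 1 (2 ^ max B 0)) ε θ hε hθ (fun F _ _ hF ι ξ T hT => hbd F hF ι ξ T hT)
      fun F _ _ ι ξ T T' h1 h2 h3 => mono ι ξ h1 h2 h3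
  · have hcN := countN
    have hcX := hX.to_subtype
    let J : Type := {K : IntermediateField ℚ ℂ // NumberField K} × (Σ g : ℕ, Fin g → X) × ℕ × ℕ
    obtain ⟨Z, hZ, hz⟩ := near_open (fun j : Fin n => U j) (fun j => (hU j).isOpen) (J := J) (fun i => i.1.1)
      (fun i => algebraMap i.1.1 ℂ) (fun i B T => haveI := i.1.2
        Exceptional n i.2.2.1 (fun j z (k : {x : Name (p j) // x ∉ S j}) => value (τ j) z k.1) i.1.1 (algebraMap i.1.1 ℂ) (fun l => (i.2.1.2 l : ℂ)) (fun _ => Set.univ) (i.2.2.2 : ℝ) B T) (by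
        rintro ⟨⟨K, hK⟩, ⟨g, ξ⟩, d, A⟩ k
        obtain ⟨B, C, T₀, hbd⟩ := Pool.Agent.Q138.AJ.Rede373.result U τ S hU (fun j => inner (U j) k) (fun j => inner_compact _ k)
          (fun j => inner_sub _ k) (Module.finrank ℚ K) g d (max (A : ℝ) 0) 1 one_pos
        obtain ⟨c, hc⟩ := dimH_theta K (algebraMap K ℂ) (fun T => {s | s ∈ Exceptional n d (fun j z (k : {x : Name (p j) // x ∉ S j}) => value (τ j) z k.1) K (algebraMap K ℂ) (fun l => (ξ l : ℂ)) (fun _ => Set.univ) (A : ℝ) (max B 0 + 1) T ∧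
            ∀ j, algebraMap K ℂ (s j) ∈ inner (U j) k})
          (fun T => Exceptional n d (fun j z (k : {x : Name (p j) // x ∉ S j}) => value (τ j) z k.1) K (algebraMap K ℂ) (fun l => (ξ l : ℂ)) (fun j => inner (U j) k) (max (A : ℝ) 0) B T)
          (fun T => Points K (algebraMap K ℂ) (⋃ j, inner (U j) k) T) (fun T x hx => hx.2) C T₀ (max 1 (2 ^ max B 0))
          (fun T hT => hbd K le_rfl _ _ T hT) (by
            intro T T' h1 h2 h3 t ht
            refine mono _ _ h1 h2 h3 ⟨fun j => ⟨ht.2 j, (ht.1.1 j).2⟩, ht.1.2⟩)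
        exact ⟨max B 0 + 1, c, hc⟩)
    refine ⟨Z, hZ, fun z hzZ hzΩ K hK g ξ hξ d A => ?_⟩
    obtain ⟨B, θ, hθ, hbd⟩ := hz z hzZ hzΩ (⟨K, hK⟩, ⟨g, fun i => ⟨ξ i, hξ i⟩⟩, d, ⌈A⌉₊)
    refine ⟨B, θ, hθ, ?_⟩
    filter_upwards [hbd, eventually_ge_atTop 1] with T hT hT1
    intro t ht
    refine hT t ?_
    obtain ⟨hp, P, hP, hc, hs⟩ := ht
    refine ⟨hp, P, hP, fun s => ?_, hs⟩
    obtain ⟨c, hc1, hc2⟩ := hc s
    exact ⟨c, fun i φ => (hc1 i φ).trans (Real.rpow_le_rpow_of_exponent_le hT1 (Nat.le_ceil A)), hc2⟩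

end Pool.Agent.Results.MP_ede373_nt.CurvesNearGivenPoints
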