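import Pool.Agent.Q189.JM.Out1

/-!
# The modular Schanuel conjecture with derivatives: a measure, at almost all algebraic invariants

Let `z_1, …, z_k` be points of the upper half-plane with algebraic invariants `α_i = j(z_i)`. If they are not CM points and
are pairwise not equivalent under `GL_2^+(ℚ)`, the conjecture predicts that the `3 k` numbers `z_i`, `j'(z_i)`, `j''(z_i)` are
algebraically independent. We prove this with a measure for almost all tuples of invariants, and for ALL points `z_i` above
them, near relations of arbitrary height included.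

Let `Ints m T` be the set of the algebraic integers of degree at most `m` all of whose conjugates are at most `T` in
absolute value (the fields `ℚ(α_1, …, α_k)` are different from tuple to tuple). For all `k`, `g`, `d`, `m` there are `B` and
`c > 0` such that for all but a proportion `O(T ^ (-c))` of the tuples `α` in `Ints m T ^ k` the following holds for all `z_i`
with `j(z_i) = α_i`, `|z_i| ≤ H`, `Im z_i ≥ 1/H`:

* `|P(z_i, j(z_i), j'(z_i), j''(z_i))| ≥ H ^ (-B)` for every polynomial `P` with integer coefficients of degree at most `d`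
  and height at most `H` in the `4 k` numbers, unless `P` vanishes identically for `j(z_i) = α_i`;
* relative to arbitrary complex numbers `ζ_1, …, ζ_g` (for example `2 π i`, or the values of `j`, `j'`, `j''` at special points
  or at any other points): near relations over `ℤ[ζ]` are near relations everywhere,
  `|P(w, ζ)| ≤ (H max(1, |w|)) ^ B |P(z_i, α_i, j'(z_i), j''(z_i), ζ)|` for all `P` of degree at most `d` and height at most `H`
  and ALL complex `w` with the coordinates `α_i` in the places of the `j(z_i)`; in particular the `3 k` numbers `z_i`, `j'(z_i)`,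
  `j''(z_i)` satisfy no relation of degree at most `d` over `ℤ[ζ, α]`, of degree at most `d` in `ζ`, `α`, of any height.

`B` depends on `k`, `g`, `d`, `m` only, in particular not on `T`, on the tuple and on `ζ`. The two assertions hold for all `H` in a
long interval from `H₁` to `H₁ ^ exp (T ^ c)`, for every sufficiently large `H₁`; and, with one exceptional set of tuples for
all `H`, for a set of `H` of upper density at least `1 - T ^ (-c)` on the doubly logarithmic scale, in particular for
arbitrarily large `H`.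

Proof. (1) For `Im z` large the numbers `z`, `j'(z)`, `j''(z)` are rational functions of `2 π i`, `j(z)`, `log j(z)` and the values at
`1/j(z)` of four G-functions of the hypergeometric equation of `j` (helper120, `Pool.Agent.Y120`); all functional relations
between them are consequences of `F G₁ - F₁ G = 1`, so that the family is connected. (2) The machine for near relations of
arbitrary height at almost all tuples (helper246, `Pool.Agent.Q246`, and `Pool.Agent.Q189.MF`): near relations between the
values at the points are near relations on the whole product of the quadrics. (3) `Pool.Agent.Q189.JM`: every point `z_i` is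
`γ w_i` with `w_i` in the fundamental domain and `γ` in `SL_2(ℤ)` with entries at most `H ^ 3`; the substitution of the fractions
changes the height to a bounded power; on the quadrics there are points where the numbers take given integral values, with
a bound, and interpolation on a grid of such points gives all `w`. (4) The first assertion follows from the second one at
integral points by taking the norm over `ℚ(α)`.
-/

set_option autoImplicit false

namespace Pool.Agent.Results.MP_ede373_nt.MeasureAlmostAllInvariants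

/-- the normalised Eisenstein series of weight `4` -/
noncomputable def E4 (τ : ℂ) : ℂ :=
  1 + 240 * ∑' m : ℕ, ((ArithmeticFunction.sigma 3 (m + 1) : ℕ) : ℂ) *
    Complex.exp (2 * (Real.pi : ℂ) * Complex.I * ((m : ℂ) + 1) * τ)

/-- the normalised Eisenstein series of weight `6` -/
noncomputable def E6 (τ : ℂ) : ℂ :=
  1 - 504 * ∑' m : ℕ, ((ArithmeticFunction.sigma 5 (m + 1) : ℕ) : ℂ) *
    Complex.exp (2 * (Real.pi : ℂ) * Complex.I * ((m : ℂ) + 1) * τ)

/-- the modular invariant `j = q⁻¹ + 744 + 196884 q + ⋯` -/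
noncomputable def J (τ : ℂ) : ℂ := 1728 * E4 τ ^ 3 / (E4 τ ^ 3 - E6 τ ^ 2)

/-- the numbers `z`, `j(z)`, `j'(z)`, `j''(z)` -/
noncomputable def numbers (z : ℂ) : Fin 4 → ℂ := ![z, J z, deriv J z, deriv (deriv J) z]

/-- the algebraic integers of degree at most `m` all of whose conjugates have absolute value at most `T` -/
def Ints (m T : ℕ) : Set ℂ :=
  {α | IsIntegral ℤ α ∧ (minpoly ℚ α).natDegree ≤ m ∧ ∀ z : ℂ, Polynomial.aeval z (minpoly ℚ α) = 0 → ‖z‖ ≤ T}

/-- The two assertions at the height `H`, for all points above the invariants `α`: the measure for polynomials with integer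
coefficients, and the transfer of near relations over `ℤ[ζ]`. -/
def Good {k g : ℕ} (d B : ℕ) (ζ : Fin g → ℂ) (α : Fin k → ℂ) (H : ℝ) : Prop :=
  ∀ z : Fin k → ℂ, (∀ i, 0 < (z i).im ∧ J (z i) = α i ∧ ‖z i‖ ≤ H ∧ 1 ≤ H * (z i).im) →
    (∀ P : MvPolynomial (Fin k × Fin 4) ℤ, P.totalDegree ≤ d → (∀ e, |((P.coeff e : ℤ) : ℝ)| ≤ H) →
      (∃ w : Fin k × Fin 4 → ℂ, (∀ i, w (i, 1) = α i) ∧ MvPolynomial.aeval w P ≠ 0) →
      1 ≤ H ^ B * ‖MvPolynomial.aeval (fun v : Fin k × Fin 4 => numbers (z v.1) v.2) P‖) ∧
    ∀ P : MvPolynomial ((Fin k × Fin 4) ⊕ Fin g) ℤ, P.totalDegree ≤ d → (∀ e, |((P.coeff e : ℤ) : ℝ)| ≤ H) →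
      ∀ w : Fin k × Fin 4 → ℂ, (∀ i, w (i, 1) = α i) →
        ‖MvPolynomial.aeval (Sum.elim w ζ) P‖ ≤
          (H * max 1 ‖w‖) ^ B * ‖MvPolynomial.aeval (Sum.elim (fun v : Fin k × Fin 4 => numbers (z v.1) v.2) ζ) P‖

/-- For all `k`, `g`, `d` and `m ≥ 1` there are `B`, `C` and `c > 0` such that for all `T ≥ 1`: for all but a proportion
`C T ^ (-c)` of the tuples `α` of elements of `Ints m T` the assertions hold for all `H` with `H₁ ≤ H ≤ H₁ ^ exp (T ^ c)`, for
each large `H₁`; and, with one exceptional set for all `H`, for a set of `H` of upper density at least `1 - T ^ (-c)` on the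
doubly logarithmic scale. -/
theorem result (k g d m : ℕ) (hm : 1 ≤ m) :
    ∃ (B : ℕ) (C c : ℝ), 0 < c ∧ ∀ T : ℕ, 1 ≤ T →
    (∃ H₀ : ℝ, ∀ H₁ : ℝ, H₀ ≤ H₁ → ∀ ζ : Fin g → ℂ,
      (({α : Fin k → ℂ | (∀ i, α i ∈ Ints m T) ∧ ¬ ∀ H : ℝ, H₁ ≤ H → H ≤ H₁ ^ Real.exp ((T : ℝ) ^ c) →
        Good d B ζ α H}.ncard : ℕ) : ℝ) ≤ C * (T : ℝ) ^ (-c) * (((Ints m T).ncard : ℕ) : ℝ) ^ k) ∧
    ∀ ζ : Fin g → ℂ, (({α : Fin k → ℂ | (∀ i, α i ∈ Ints m T) ∧ ¬ ∀ N₀ : ℕ, ∃ N, N₀ ≤ N ∧
      (({n : ℕ | n < N ∧ ¬ ∀ H : ℝ, 2 ^ (2 ^ n) ≤ H → H ≤ 2 ^ (2 ^ (n + 1)) →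
        Good d B ζ α H}.ncard : ℕ) : ℝ) ≤ (T : ℝ) ^ (-c) * N}.ncard : ℕ) : ℝ) ≤
          C * (T : ℝ) ^ (-c) * (((Ints m T).ncard : ℕ) : ℝ) ^ k := by
  have h4 : E4 = Pool.Agent.TH21.MS.E4 := funext Pool.Agent.Y120.J.E4_same
  have h6 : E6 = Pool.Agent.TH21.MS.E6 := funext Pool.Agent.Y120.J.E6_same
  have hJ : J = Pool.Agent.TH21.MS.jj := by
    funext τ
    unfold J Pool.Agent.TH21.MS.jj
    rw [h4, h6]
  have hG : ∀ (B : ℕ) (ζ : Fin g → ℂ) (α : Fin k → ℂ) (H : ℝ), Good d B ζ α H ↔ Pool.Agent.Q189.JM.Gd1 d B ζ α H := by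
    intro B ζ α H
    unfold Good Pool.Agent.Q189.JM.Gd1 numbers Pool.Agent.Q189.JM.n4
    rw [hJ]
  simp only [hG]
  exact Pool.Agent.Q189.JM.out1 k g d m hm

end Pool.Agent.Results.MP_ede373_nt.MeasureAlmostAllInvariants
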