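import Pool.Agent.Q280.MD.Conv

/-!
# A real form of the modular Schanuel conjecture with derivatives

`ModularSchanuel` is the conjecture in the form of the frozen statement.  We prove that it is equivalent to a statement
about *real* numbers which concerns only tuples with a symmetry, with prescribed members and in a prescribed region.

* Let `U` be any open set of complex numbers which contains a point of the upper half-plane (for example a small disc, or
  the points with `|z| < ε`, or with `Im z > T`).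
* Let `L` be any finite set of *closed form points*, stable under the reflection `s(z) = - conj z`.  The set `E` of closed
  form points is the smallest set of non-CM points such that `z` is in `E` as soon as, for some finite `F ⊆ E`, there is a
  nontrivial polynomial relation between the four numbers `z`, `j(z)`, `j'(z)`, `j''(z)` over `ℚ(F, j(F), j'(F), j''(F))`.
* Let `N` be any infinite set of integers.

Call a tuple `z_1, …, z_n` of non-CM points of the upper half-plane *admissible* if the points are pairwise not equivalent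
under `GL_2^+(ℚ)`, all of them lie in `U`, the set of their classes is stable under the reflection, and each point of `L`
is equivalent to some `z_i`.  Then the conjecture is equivalent to: for every admissible tuple with `n` in `N` there are
`3 n` algebraically independent ones among the `8 n` real numbers `Re a`, `Im a`, `a = z_i, j(z_i), j'(z_i), j''(z_i)`.

Proof.  (1) If `w = g z` with `g` in `GL_2^+(ℚ)` and `j'(z) ≠ 0`, then `w`, `j(w)`, `j'(w)`, `j''(w)` are algebraic over
`ℚ(z, j(z), j'(z), j''(z))`: let `V(s) = j(z + s)`, `U(s) = j(g(z + s))`, let `D` be a derivation of `ℂ` which kills the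
four numbers at `z`; the derivation `V' D - (D V) d/ds` of the ring of power series kills `V` and the algebraic numbers,
hence also `U`, which is integral over `ℚ̄[V]`, so `V' (D U) = (D V) U' = O(s^3)`.  (2) `j'` does not vanish at the non-CM
points, since its zeros are the zeros of `E_4 E_6`, where the lattice `ℤ z + ℤ` has a multiplication by a root of unity of
order `3` or `4`.  (3) So the transcendence degree `r(V)` is well defined for finite sets `V` of classes; it is submodular,
and if `r(V) ≥ 3 |V|` fails for `V` and its reflection, it fails for their intersection or their union.  A failure is not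
repaired by adding the class of a point with a relation over the field of `V`, and the orbits are dense.
-/

set_option autoImplicit false

open Matroid Set Q241.SX

namespace Pool.Agent.Results.MP_ede373_nt.RealForm

/-- The modular Schanuel conjecture with derivatives, the frozen statement verbatim. -/
def ModularSchanuel : Prop :=
    ∀ (E4 E6 J : ℂ → ℂ),
      (∀ τ : ℂ, E4 τ = 1 + 240 * ∑' m : ℕ, ((ArithmeticFunction.sigma 3 (m + 1) : ℕ) : ℂ) *
          Complex.exp (2 * (Real.pi : ℂ) * Complex.I * ((m : ℂ) + 1) * τ)) →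
      (∀ τ : ℂ, E6 τ = 1 - 504 * ∑' m : ℕ, ((ArithmeticFunction.sigma 5 (m + 1) : ℕ) : ℂ) *
          Complex.exp (2 * (Real.pi : ℂ) * Complex.I * ((m : ℂ) + 1) * τ)) →
      (∀ τ : ℂ, J τ = 1728 * E4 τ ^ 3 / (E4 τ ^ 3 - E6 τ ^ 2)) →
      ∀ (n : ℕ) (z : Fin n → ℂ),
        (∀ i, 0 < (z i).im) →
        (∀ i, ¬ ∃ a b c : ℤ, a ≠ 0 ∧ (a : ℂ) * z i ^ 2 + (b : ℂ) * z i + (c : ℂ) = 0) →
        (∀ i k, i ≠ k → ¬ ∃ a b c d : ℚ, 0 < a * d - b * c ∧
            z k = ((a : ℂ) * z i + (b : ℂ)) / ((c : ℂ) * z i + (d : ℂ))) →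
        ∃ f : Fin (3 * n) → Fin n × Fin 4,
          AlgebraicIndependent ℚ (fun k : Fin (3 * n) =>
            ![z (f k).1, J (z (f k).1), deriv J (z (f k).1), deriv (deriv J) (z (f k).1)] (f k).2)

/-- the normalised Eisenstein series of weight `4` -/
noncomputable def E4 (τ : ℂ) : ℂ :=
  1 + 240 * ∑' m : ℕ, ((ArithmeticFunction.sigma 3 (m + 1) : ℕ) : ℂ) *
    Complex.exp (2 * (Real.pi : ℂ) * Complex.I * ((m : ℂ) + 1) * τ)

/-- the normalised Eisenstein series of weight `6` -/
noncomputable def E6 (τ : ℂ) : ℂ :=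
  1 - 504 * ∑' m : ℕ, ((ArithmeticFunction.sigma 5 (m + 1) : ℕ) : ℂ) *
    Complex.exp (2 * (Real.pi : ℂ) * Complex.I * ((m : ℂ) + 1) * τ)

/-- the modular invariant `j = q⁻¹ + 744 + 196884 q + ⋯` -/
noncomputable def J (τ : ℂ) : ℂ := 1728 * E4 τ ^ 3 / (E4 τ ^ 3 - E6 τ ^ 2)

/-- The numbers `z`, `j(z)`, `j'(z)`, `j''(z)`. -/
noncomputable def numbers (z : ℂ) : Fin 4 → ℂ := ![z, J z, deriv J z, deriv (deriv J) z]

/-- `z` is a CM point. -/
def CM (z : ℂ) : Prop := ∃ a b c : ℤ, a ≠ 0 ∧ (a : ℂ) * z ^ 2 + (b : ℂ) * z + (c : ℂ) = 0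

/-- `w = (a z + b) / (c z + d)` for a rational matrix of positive determinant. -/
def Equivalent (z w : ℂ) : Prop :=
  ∃ a b c d : ℚ, 0 < a * d - b * c ∧ w = ((a : ℂ) * z + (b : ℂ)) / ((c : ℂ) * z + (d : ℂ))

/-- The reflection `z ↦ - conj z` of the upper half-plane. -/
noncomputable def refl (z : ℂ) : ℂ := -(starRingEnd ℂ) z

/-- The field generated by the points of `F` and the values of `j`, `j'`, `j''` at these points. -/
noncomputable abbrev fieldOf (F : Set ℂ) : IntermediateField ℚ ℂ :=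
  IntermediateField.adjoin ℚ (⋃ y ∈ F, range (numbers y))

/-- The closed form points: the smallest set `E` of non-CM points of the upper half-plane which contains `z` as soon as,
for some finite `F ⊆ E`, there is a nontrivial polynomial relation between `z`, `j(z)`, `j'(z)`, `j''(z)` over the field
generated by the points of `F` and the values of `j`, `j'`, `j''` at these points. -/
inductive ClosedForm : ℂ → Prop
  | intro (F : Finset ℂ) (z : ℂ) (hF : ∀ y ∈ F, ClosedForm y) (him : 0 < z.im) (hcm : ¬ CM z)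
      (h : ¬ AlgebraicIndependent (fieldOf F) (numbers z)) : ClosedForm z

/-- The tuples which are considered: non-CM points of the upper half-plane in the set `U`, pairwise not equivalent, such
that the set of their classes is stable under the reflection and contains the classes of the points of `L`. -/
structure Admissible (L : Finset ℂ) (U : Set ℂ) {n : ℕ} (z : Fin n → ℂ) : Prop where
  im_pos : ∀ i, 0 < (z i).im
  mem : ∀ i, z i ∈ U
  not_cm : ∀ i, ¬ CM (z i)
  inequivalent : ∀ i k, i ≠ k → ¬ Equivalent (z i) (z k)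
  reflection : ∀ i, ∃ k, Equivalent (refl (z i)) (z k)
  prescribed : ∀ x ∈ L, ∃ i, Equivalent x (z i)

/-! ### Preparations -/

open Pool.Agent.Q280.MD
open Pool.Agent.TH21.MS (jj)

theorem E4_eq : E4 = Pool.Agent.TH21.MS.E4 := by
  funext τ
  unfold E4 Pool.Agent.TH21.MS.E4
  congr 3
  funext m
  rw [← Complex.exp_nat_mul]
  congr 2
  push_cast
  ring

theorem E6_eq : E6 = Pool.Agent.TH21.MS.E6 := by
  funext τ
  unfold E6 Pool.Agent.TH21.MS.E6
  congr 3
  funext m
  rw [← Complex.exp_nat_mul]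
  congr 2
  push_cast
  ring

theorem J_eq : J = jj := by
  funext τ
  unfold J jj
  rw [E4_eq, E6_eq]

theorem range_numbers (z : ℂ) : range (numbers z) = jet z := by
  rw [jet_eq_range, numbers, J_eq]

theorem cm_iff {z : ℂ} (hz : 0 < z.im) : CM z ↔ Pool.Agent.Q280.MS.CM z := (cm_iff_quad hz).symm

theorem eqv_iff {z w : ℂ} (hz : 0 < z.im) : Equivalent z w ↔ Pool.Agent.Q280.MS.Equivalent z w :=
  (equivalent_iff_div hz).symm

/-- the system of the non-CM points -/
@[reducible] noncomputable def A : SysW := sysD _ goodN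

theorem q_eq_iff {x y : A.X} : A.q x = A.q y ↔ Pool.Agent.Q280.MS.Equivalent x.1 y.1 := sysD_q goodN

theorem wt_three (v : A.O) : A.wt v = 3 := by
  obtain ⟨x, rfl⟩ := Quotient.exists_rep v
  exact wgt_ncm x.2.2

theorem Wt_eq (V : Finset A.O) : A.Wt V = 3 * V.card := by
  unfold SysW.Wt
  rw [Finset.sum_congr rfl fun v _ => wt_three v, Finset.sum_const, smul_eq_mul, mul_comm]

/-- the number of inequivalent points is a lower bound for the rank, if the inequality does not fail -/
theorem le_eRk (hno : ∀ V, ¬ A.Bad V) {m : ℕ} (u : Fin m → A.X)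
    (hu : ∀ i k, A.q (u i) = A.q (u k) → i = k) : ((3 * m : ℕ) : ℕ∞) ≤ M.eRk (⋃ i, jet (u i).1) := by
  have h1 := hno (SysW.img u)
  unfold SysW.Bad at h1
  push Not at h1
  rw [Wt_eq, SysW.card_image u hu, SysW.rk_img] at h1
  exact h1

theorem not_bad (h : ModularSchanuel) (V : Finset A.O) : ¬ A.Bad V := by
  intro hV
  obtain ⟨u, _, h1, _, h3⟩ := SysW.exists_reps V univ fun v _ => by
    obtain ⟨x, rfl⟩ := Quotient.exists_rep v
    exact ⟨x, mem_univ _, rfl⟩
  obtain ⟨f, hf⟩ := h E4 E6 J (fun τ => rfl) (fun τ => rfl) (fun τ => rfl) _ (fun i => (u i).1)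
    (fun i => (u i).2.1) (fun i h => (u i).2.2 ((cm_iff (u i).2.1).mp h))
    (fun i k hik he => hik (h3 i k (q_eq_iff.mpr ((eqv_iff (u i).2.1).mp he))))
  have h4 : ((3 * V.card : ℕ) : ℕ∞) ≤ A.rk V := by
    refine enat_le_eRk _ hf fun m => ?_
    refine subset_cl _ (SysW.S_sub_P (h1 (f m).1) ?_)
    show _ ∈ jet (u (f m).1).1
    rw [← range_numbers]
    exact ⟨(f m).2, rfl⟩
  unfold SysW.Bad at hV
  rw [Wt_eq] at hV
  exact absurd (h4.trans_lt hV) (lt_irrefl _)

theorem ms_of_not_bad (hno : ∀ V, ¬ A.Bad V) : ModularSchanuel := by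
  intro E4' E6' J' hE4 hE6 hJ n z h1 h2 h3
  have e4 : E4' = E4 := funext hE4
  have e6 : E6' = E6 := funext hE6
  have eJ : J' = J := by
    funext τ
    rw [hJ τ, e4, e6]
    rfl
  subst eJ
  have h4 := le_eRk hno (fun i => (⟨z i, h1 i, fun h => h2 i ((cm_iff (h1 i)).mpr h)⟩ : A.X))
    (fun i k he => by
      by_contra hik
      exact h3 i k hik ((eqv_iff (h1 i)).mpr (q_eq_iff.mp he)))
  obtain ⟨w, hw1, hw2⟩ := exists_of_le_eRk h4
  have h5 : ∀ k, ∃ p : Fin n × Fin 4, numbers (z p.1) p.2 = w k := by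
    intro k
    obtain ⟨i, hi⟩ := mem_iUnion.mp (hw1 k)
    have hi' : w k ∈ jet (z i) := hi
    rw [← range_numbers] at hi'
    obtain ⟨t, ht⟩ := hi'
    exact ⟨(i, t), ht⟩
  choose f hf using h5
  refine ⟨f, ?_⟩
  have h6 : w = fun k => numbers (z (f k).1) (f k).2 := funext fun k => (hf k).symm
  rw [h6] at hw2
  exact hw2

theorem closedForm_cf {x : ℂ} (hx : ClosedForm x) : ∃ p : A.X, p.1 = x ∧ A.CF p := by
  induction hx with
  | intro F z hF him hcm h ih =>
    choose f hf1 hf2 using ih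
    have hfin : (Set.range fun y : F => (f y.1 y.2 : A.X)).Finite := Set.finite_range _
    refine ⟨⟨z, him, fun h' => hcm ((cm_iff him).mpr h')⟩, rfl, SysW.CF.intro hfin.toFinset _ ?_ ?_⟩
    · intro y hy
      rw [Set.Finite.mem_toFinset] at hy
      obtain ⟨t, rfl⟩ := hy
      exact hf2 _ _
    · have h1 : (⋃ y ∈ (F : Set ℂ), range (numbers y)) = ⋃ y ∈ hfin.toFinset, A.S y := by
        ext a
        simp only [mem_iUnion]
        constructor
        · rintro ⟨y, hy, ha⟩
          rw [range_numbers] at ha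
          refine ⟨f y hy, (Set.Finite.mem_toFinset _).mpr ⟨⟨y, hy⟩, rfl⟩, ?_⟩
          show a ∈ jet (f y hy).1
          rw [hf1]
          exact ha
        · rintro ⟨p, hp, ha⟩
          rw [Set.Finite.mem_toFinset] at hp
          obtain ⟨t, rfl⟩ := hp
          refine ⟨t.1, t.2, ?_⟩
          rw [range_numbers]
          have ha' : a ∈ jet (f t.1 t.2).1 := ha
          rwa [hf1] at ha'
      have h2 : ¬ AlgebraicIndependent (IntermediateField.adjoin ℚ (⋃ y ∈ hfin.toFinset, A.S y))
          ![z, jj z, deriv jj z, deriv (deriv jj) z] := by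
        rw [← h1, ← J_eq]
        exact h
      have h3 := step_of_dep h2
      have h4 : ((A.w ⟨z, him, fun h' => hcm ((cm_iff him).mpr h')⟩ : ℕ) : ℕ∞) = ((3 : ℕ) : ℕ∞) := by
        congr 1
        exact wgt_ncm fun h' => hcm ((cm_iff him).mpr h')
      rw [h4]
      exact h3

open Classical in
/-- if the conjecture fails, the inequality fails for the classes of an admissible tuple -/
theorem exists_bad_tuple (hbad : ∃ V, A.Bad V) (L : Finset ℂ) (hL : ∀ x ∈ L, ClosedForm x ∧ refl x ∈ L)
    (N : Set ℕ) (hN : N.Infinite) (U : Set ℂ) (hU : IsOpen U) (hUne : ∃ u ∈ U, 0 < u.im) :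
    ∃ n ∈ N, ∃ z : Fin n → ℂ, Admissible L U z ∧ ∃ W : Finset A.O, A.Bad W ∧ W.card = n ∧
      ∀ i, jet (z i) ⊆ A.P (W : Set A.O) ∧ jet (Pool.Agent.Q280.MS.refl (z i)) ⊆ A.P (W : Set A.O) := by
  obtain ⟨V, hV⟩ := hbad
  have hLc : ∀ x ∈ L, ∃ p : A.X, p.1 = x ∧ A.CF p := fun x hx => closedForm_cf (hL x hx).1
  choose f hf1 hf2 using hLc
  have hfin : (Set.range fun y : L => (f y.1 y.2 : A.X)).Finite := Set.finite_range _
  obtain ⟨W, h1, h2, h3, h4⟩ := hV.exists_good (fun v => A.wt v = 3) (sysD_sup goodN) hfin.toFinset (by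
    intro y hy
    rw [Set.Finite.mem_toFinset] at hy
    obtain ⟨t, rfl⟩ := hy
    exact hf2 _ _) (by
    intro y hy
    rw [Set.Finite.mem_toFinset] at hy ⊢
    obtain ⟨t, rfl⟩ := hy
    refine ⟨⟨refl t.1, (hL t.1 t.2).2⟩, ?_⟩
    refine Subtype.ext ?_
    show (f (refl t.1) (hL t.1 t.2).2).1 = refl (f t.1 t.2).1
    rw [hf1, hf1]) N hN
  have h4' : W.card ∈ N := by
    convert h4 using 2
    ext v
    simp only [Finset.mem_filter, wt_three, and_true]
  obtain ⟨u0, hu0, hu0'⟩ := hUne
  obtain ⟨u, h8, h5, h6, h7⟩ := SysW.exists_reps W {x : A.X | x.1 ∈ U} fun v _ => by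
    obtain ⟨x, rfl⟩ := Quotient.exists_rep v
    obtain ⟨w, hw1, hw2, hw3⟩ := exists_equivalent_in hU hu0 hu0' x.2.1
    refine ⟨⟨w, hw2, fun h => x.2.2 ((CM.iff x.2.1 hw2 hw3).mpr h)⟩, hw1, ?_⟩
    exact q_eq_iff.mpr hw3.symm
  refine ⟨_, h4', fun i => (u i).1, ?_, W, h1, rfl, fun i => ⟨SysW.S_sub_P (h5 i), ?_⟩⟩
  · refine ⟨fun i => (u i).2.1, fun i => h8 i, fun i h => (u i).2.2 ((cm_iff (u i).2.1).mp h),
      fun i k hik he => hik (h7 i k (q_eq_iff.mpr ((eqv_iff (u i).2.1).mp he))), ?_, ?_⟩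
    · intro i
      obtain ⟨k, hk⟩ := h6 _ (h2 _ (h5 i))
      have h9 : Pool.Agent.Q280.MS.Equivalent (Pool.Agent.Q280.MS.refl (u i).1) (u k).1 := q_eq_iff.mp hk.symm
      exact ⟨k, (eqv_iff (refl_pos (u i).2.1)).mpr h9⟩
    · intro x hx
      have h9 : A.q (f x hx) ∈ W := h3 (Finset.mem_image.mpr ⟨f x hx,
        (Set.Finite.mem_toFinset _).mpr ⟨⟨x, hx⟩, rfl⟩, rfl⟩)
      obtain ⟨k, hk⟩ := h6 _ h9
      have h10 : Pool.Agent.Q280.MS.Equivalent (f x hx).1 (u k).1 := q_eq_iff.mp hk.symm
      rw [hf1] at h10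
      have h11 : 0 < x.im := by rw [← hf1 x hx]; exact (f x hx).2.1
      exact ⟨k, (eqv_iff h11).mpr h10⟩
  · exact SysW.S_sub_P (A := A) (x := A.σ (u i)) (h2 _ (h5 i))

/-- **A real form of the modular Schanuel conjecture with derivatives.** -/
theorem result (L : Finset ℂ) (hL : ∀ x ∈ L, ClosedForm x ∧ refl x ∈ L) (N : Set ℕ) (hN : N.Infinite)
    (U : Set ℂ) (hU : IsOpen U) (hUne : ∃ u ∈ U, 0 < u.im) :
    ModularSchanuel ↔ ∀ n ∈ N, ∀ z : Fin n → ℂ, Admissible L U z →
      ∃ w : Fin (3 * n) → ℝ,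
        (∀ k, ∃ (i : Fin n) (t : Fin 4), w k = (numbers (z i) t).re ∨ w k = (numbers (z i) t).im) ∧
        AlgebraicIndependent ℚ w := by
  constructor
  · intro hMS n _ z hz
    obtain ⟨R, hR⟩ : ∃ R : Set ℝ, R = {y | ∃ (i : Fin n) (t : Fin 4), y = (numbers (z i) t).re ∨
      y = (numbers (z i) t).im} := ⟨_, rfl⟩
    have h1 := le_eRk (not_bad hMS) (fun i => (⟨z i, hz.im_pos i, fun h => hz.not_cm i
      ((cm_iff (hz.im_pos i)).mpr h)⟩ : A.X)) (fun i k he => by
        by_contra hik
        exact hz.inequivalent i k hik ((eqv_iff (hz.im_pos i)).mpr (q_eq_iff.mp he)))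
    have hb : ∀ r ∈ R, (r : ℂ) ∈ M.closure ((fun x : ℝ => (x : ℂ)) '' R) :=
      fun r hr => subset_cl _ ⟨r, hr, rfl⟩
    have h2 : (⋃ i, jet (z i)) ⊆ M.closure ((fun x : ℝ => (x : ℂ)) '' R) := by
      refine iUnion_subset fun i => ?_
      rw [← range_numbers]
      rintro _ ⟨t, rfl⟩
      refine (Pool.Agent.Q280.MS.mem_cl_re_im (hb _ ?_) (hb _ ?_)).1
      · rw [hR]; exact ⟨i, t, Or.inl rfl⟩
      · rw [hR]; exact ⟨i, t, Or.inr rfl⟩
    have h3 : ((3 * n : ℕ) : ℕ∞) ≤ M.eRk ((fun x : ℝ => (x : ℂ)) '' R) := by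
      refine h1.trans ?_
      rw [← M.eRk_closure_eq ((fun x : ℝ => (x : ℂ)) '' R)]
      exact M.eRk_mono h2
    obtain ⟨w, hw1, hw2⟩ := exists_real h3
    refine ⟨w, fun k => ?_, hw2⟩
    have := hw1 k
    rw [hR] at this
    exact this
  · intro h
    by_contra hMS
    have hbad : ∃ V, A.Bad V := by
      by_contra hno
      push Not at hno
      exact hMS (ms_of_not_bad hno)
    obtain ⟨n, hn, z, hz, W, h1, h2, h3⟩ := exists_bad_tuple hbad L hL N hN U hU hUne
    obtain ⟨w, hw1, hw2⟩ := h n hn z hz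
    have h4 : ((3 * n : ℕ) : ℕ∞) ≤ M.eRk (A.P (W : Set A.O)) := by
      refine le_of_real w (fun k => ?_) hw2
      obtain ⟨i, t, hi⟩ := hw1 k
      have h5 : numbers (z i) t ∈ jet (z i) := by
        rw [← range_numbers]
        exact ⟨t, rfl⟩
      have h6 := conj_jet (hz.im_pos i) ((h3 i).1.trans (subset_cl _)) ((h3 i).2.trans (subset_cl _)) h5
      rcases hi with hi | hi
      · rw [hi]; exact h6.1
      · rw [hi]; exact h6.2
    unfold SysW.Bad at h1
    rw [Wt_eq, h2] at h1
    exact absurd (h4.trans_lt h1) (lt_irrefl _)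

end Pool.Agent.Results.MP_ede373_nt.RealForm
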