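import Pool.Agent.Q138.PS.VJ
import Pool.Agent.Results.MP_ede373_nt.AlgebraicWindows

/-!
# `z_i, j'(z_i), j''(z_i)` for tuples of algebraic invariants `j(z_i) = ± t_i + γ`, `t_i` close to `α P(n)`

Let `q ≥ 2` and let `𝒞` be a countable set of complex numbers. There is an absolute constant `G ≥ 1` such that outside a set of
real numbers of Hausdorff dimension at most `q / (q + 1 / (q 2 ^ (q - 1)))` (that is `8 / 9` for `q = 2`) every `α > 0` has the
following property. There is `η > 0` such that for ALL `r`, `δ`, `d`, ALL `w_1, ..., w_g` in `𝒞`, ALL algebraic numbers `γ` and both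
signs `ε` there is `κ > 0` such that for all large `N` and ALL integral polynomials `P` of degree `q` with positive leading
coefficient and coefficients of size at most `N ^ η`: for all but `N ^ (1 - κ)` of the `n ≤ N`, for ALL `r`-tuples of distinct
integers `t_1, ..., t_r` in one residue class modulo `G` with `|t_i - ⌊α P(n)⌋| ≤ N ^ κ` and ALL points `z_i` of the upper
half-plane with `j(z_i) = ε t_i + γ`, every relation of degree at most `δ` over any number field of degree at most `d` between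
`2 π i, w_1, ..., w_g` and the `3 r` numbers `z_i, j'(z_i), j''(z_i)` becomes trivial after the substitution of
`2 π i, w_1, ..., w_g`. (For `r = 1` these are all integers `t` with `|t - ⌊α P(n)⌋| ≤ N ^ κ`.)
-/

set_option autoImplicit false

namespace Pool.Agent.Results.MP_ede373_nt.TuplesAlongRealMultiples

open Finset Filter Topology
open Pool.Agent.Q138.PS
open AlgebraicWindows (J values generic Height)

/-- For all `r`-tuples of distinct numbers `x_i` in `S` and all points `z_i` with `j(z_i) = x_i` every polynomial of degree at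
most `δ` over a number field of degree at most `d` which vanishes at `2 π i, w` and the `3 r` numbers of the `z_i` is zero after
the substitution of `2 π i, w`. -/
def AllFree (r δ d : ℕ) {g : ℕ} (w : Fin g → ℂ) (S : Set ℂ) : Prop :=
  ∀ x : Fin r → ℂ, Function.Injective x → (∀ i, x i ∈ S) → ∀ z : Fin r → ℂ, (∀ i, 0 < (z i).im ∧ J (z i) = x i) →
    ∀ K : IntermediateField ℚ ℂ, FiniteDimensional ℚ K → Module.finrank ℚ K ≤ d →
    ∀ P : MvPolynomial (Option (Fin g) ⊕ Fin r × Fin 3) K, P.totalDegree ≤ δ →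
      MvPolynomial.aeval (values w z) P = 0 → MvPolynomial.aeval (generic (k := r) w) P = 0

/-- **Theorem.** -/
theorem result : ∃ G : ℕ, 1 ≤ G ∧ ∀ (q : ℕ) (_ : 2 ≤ q) (𝒞 : Set ℂ) (_ : 𝒞.Countable),
    ∃ E : Set ℝ, dimH E ≤ ENNReal.ofReal (q / (q + 1 / ((q : ℝ) * 2 ^ (q - 1)))) ∧ ∀ α : ℝ, 0 < α → α ∉ E →
      ∃ η : ℝ, 0 < η ∧ ∀ (r δ d g : ℕ) (w : Fin g → ℂ), (∀ i, w i ∈ 𝒞) → ∀ γ : ℂ, IsAlgebraic ℚ γ →
      ∀ ε : ℤ, ε = 1 ∨ ε = -1 →
      ∃ κ : ℝ, 0 < κ ∧ ∀ᶠ N : ℕ in atTop, ∀ P : Polynomial ℤ, P.natDegree = q → 0 < P.leadingCoeff →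
        (∀ j, |((P.coeff j : ℤ) : ℝ)| ≤ (N : ℝ) ^ η) →
        (badG (fun S => ∀ a : ℕ, AllFree r δ d w ((fun t : ℕ => (ε : ℂ) * t + γ) '' (S ∩ {t | t % G = a % G})))
          ⌊(N : ℝ) ^ κ⌋₊ α P N : ℝ) ≤ (N : ℝ) ^ (1 - κ) := by
  classical
  obtain ⟨G, hG, h⟩ := AlgebraicWindows.result
  refine ⟨G, hG, fun q hq 𝒞 h𝒞 => ?_⟩
  have hC : Countable {x : ℂ // x ∈ 𝒞} := h𝒞.to_subtype
  obtain ⟨E, hE, hg⟩ := win_algS (ι := (ℕ × ℕ × ℕ) × (Σ g : ℕ, Fin g → {x : ℂ // x ∈ 𝒞})) q hq (fun _ => G) (fun _ => hG)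
    (fun i => AllFree i.1.1 i.1.2.1 i.1.2.2 (fun j => (i.2.2 j : ℂ)))
    (fun i S S' hS h x hx hxS => h x hx fun j => hS (hxS j))
    (fun i m A => by
      obtain ⟨E, hE⟩ := h G le_rfl i.2.1 i.1.1 m i.1.2.2 i.1.2.1 A
      refine ⟨E, i.2.1 + 2, fun H ξ hξ hp => ?_⟩
      obtain ⟨S, hS, h1⟩ := hE H ξ hξ hp (fun j => (i.2.2 j : ℂ))
      refine ⟨S, hS, ?_⟩
      intro x hx hxS z hz
      choose u hu1 hu2 hu3 hu4 using hxS
      exact h1 u (fun a b hab => hx (by rw [hu4 a, hu4 b, hab])) (fun j => ⟨hu1 j, hu2 j, hu3 j⟩) z fun j =>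
        ⟨(hz j).1, by rw [(hz j).2, hu4 j]⟩)
  refine ⟨E, hE, fun α hα hαE => ?_⟩
  obtain ⟨η, hη, h1⟩ := hg α hα hαE
  refine ⟨η, hη, fun r δ d g w hw γ hγ ε hε => ?_⟩
  exact h1 ((r, δ, d), ⟨g, fun j => ⟨w j, hw j⟩⟩) γ hγ ε hε

end Pool.Agent.Results.MP_ede373_nt.TuplesAlongRealMultiples
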